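import Mathlib
import Pool.Agent.H155.QX.LimitC

/-!
# The asymptotic upper bound for the quantum extremal numbers `Q_ex(2k + c, k)`

`Q_ex(n, k)` (`Qex n k`, see `Pool/Agent/H155/QX/Defs.lean`) is the largest number of sets of `k`
qubits on which a state of `n` qubits is maximally mixed. We prove for all `c ≥ 0`

  `limsup Q_ex(2k + c, k) / C(2k + c, k) ≤ ∏ (1 - 2^(-c) 4^(-j))`  (product over all `j ≥ 1`),

for example `0.6885...` for `c = 0`, and more precisely

  `(k + c + t) ⋯ (k + c + 1) Q_ex(2k + c, k) ≤ c_t (k + c + t)^t C(2k + c, k)` for all `t ≤ k`,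

where `c_t` is the product of the numbers `1 - 2^(-c) 4^(-j)`, `1 ≤ j ≤ t`, divided by
`(1 - 2^(-c) 4^(-t))^t`. For even `c = 2b` this is the probability that `t` random nonzero vectors in a
space of dimension `t + b` over the field with four elements are linearly independent.

Proof. For a set `A` of qubits let `p(A)` be the sum of the squares of the expectations of the Pauli
operators supported in `A`; then `p(A) ≥ 1`, `p(A) = 1` (say: `A` is good) if the state is maximally
mixed on `A`, and `2^(-|A|) p(A)`, the purity of the reduced state, is the same for `A` and its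
complement. Subsets of good sets are good.

1. Let `G` be a set of `k - t` qubits, `t ≥ 2`, and `I` a set of qubits outside of `G` such that
`G ∪ {v, w}` is good for all `v ≠ w` in `I`. Then `|I| ≤ N_t = (2^c 4^t - 1) / 3`. Indeed consider the
Pauli operators other than the identity which are supported in the complement `W` of `G`, weighted with
the squares of their expectations, and the number of the elements of `I` which are not in their
support. The duality gives the total weight and the first two moments of this number; then use the
inequality of Cauchy and Schwarz (`indep_boundC`).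

2. Let `F_t(G, U)` be the number of sequences of `t` different elements of `U` which together with `G`
form a good set of `k` qubits. Then `F_t(G, U) ≤ c_t |U|^t`: we may suppose that `G ∪ {v}` is good for
all `v` in `U`. For `v` in `U` let `d(v)` be the number of the `w` in `U` such that `w = v` or
`G ∪ {v, w}` is not good. By induction `F_t(G, U)` is at most `c_{t-1}` times the sum of the numbers
`(|U| - d(v))^(t-1)`. By step 1 and the inequality of Caro and Wei the sum of the numbers `1 / d(v)` is
at most `N_t`, and the inequality `(1 - 1/y)^(t-1) ≤ (1 - 1/N)^(t-1) (1 + (t-1) (y - N)/(N (N-1)))` for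
`y = |U| / d(v)`, `N = N_t` shows that the sum is at most `(1 - 1/N_t)^(t-1) |U|^t` (`F_leC`).

3. Take the mean over all sets `G` of `k - t` qubits with their complements `U`.
-/

set_option autoImplicit false

open Filter

namespace Pool.Agent.Results.MP_450e1b_mp.LimitBound

open Pool.Agent.H155.QX

/-- **Main theorem.** The upper bounds with the constants `c_t`, the bound `∏ (1 - 2^(-c) 4^(-j))` for
the limit superior of `Q_ex(2k + c, k) / C(2k + c, k)`, and a numerical bound for this infinite product
in the case `c = 0`. -/
theorem result :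
    (∀ c k t : ℕ, t ≤ k → ((k + c + t).descFactorial t : ℝ) * Qex (2 * k + c) k ≤
      (∏ j ∈ Finset.range t, (1 - 1 / ((2 : ℝ) ^ c * 4 ^ (j + 1)))) /
        (1 - 1 / (2 ^ c * 4 ^ t)) ^ t * ((k : ℝ) + c + t) ^ t * ((2 * k + c).choose k : ℝ)) ∧
    (∀ (c : ℕ) (ε : ℝ), 0 < ε → ∀ᶠ k : ℕ in atTop, (Qex (2 * k + c) k : ℝ) ≤
      (∏' j : ℕ, (1 - 1 / ((2 : ℝ) ^ c * 4 ^ (j + 1))) + ε) * ((2 * k + c).choose k : ℝ)) ∧
    ∏' j : ℕ, (1 - 1 / ((2 : ℝ) ^ 0 * 4 ^ (j + 1))) ≤ 0.68856 := by
  refine ⟨?_, ?_, cC_le⟩
  · intro c k t ht
    rw [two_mul, ← TtC_eq]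
    exact rec_boundC ht
  · intro c ε hε
    simp only [two_mul]
    exact limsup_boundC c hε

end Pool.Agent.Results.MP_450e1b_mp.LimitBound
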