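import Mathlib
import Pool.Agent.H155.QX.Window

/-!
# Upper bounds for the quantum extremal numbers `Q_ex(2k, k)` and `Q_ex(2k + 1, k)`

`Q_ex(n, k)` (`Qex n k`, see `Pool/Agent/H155/QX/Defs.lean`) is the largest number of sets of `k`
qubits on which a state of `n` qubits is maximally mixed. Let `t(m, r)` be the number of edges of the
Turán graph with `m` vertices and `r` classes (the largest number of edges of a graph with `m` vertices
and without complete subgraph on `r + 1` vertices). For all `k`

  `Q_ex(2k, k)     ≤ t(k + 2, 5) / C(k + 2, 2) * C(2k, k)     ≤ (4/5) (k + 2)/(k + 1) * C(2k, k)`,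
  `Q_ex(2k + 1, k) ≤ t(k + 2, 7) / C(k + 2, 2) * C(2k + 1, k) ≤ (6/7) (k + 2)/(k + 1) * C(2k + 1, k)`.

Proof. For a set `A` of qubits let `p(A)` be the sum of the squares of the expectations of the Pauli
operators supported in `A`; then `p(A) ≥ 1`, `p(A) = 1` if the state is maximally mixed on `A`, and
`2^(-|A|) p(A)`, the purity of the reduced state, is the same for `A` and its complement. Let `W` be a
set of `k + 2` qubits, and call a pair `V` of elements of `W` good if the state is maximally mixed on
`W \ V`. Suppose that all pairs in a subset `U` of `W` are good. The sum of `(-1)^|V| p(W \ V)` over the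
subsets `V` of `U` is nonnegative: it is the sum of the squares of the expectations of the Pauli
operators whose support is in `W` and contains `U`. All its terms with `|V| ≥ 2` are `±1`, and the
duality gives `p(W \ {v}) ≥ p(W) / 4` and `p(W) ≥ 2^(2 (k + 2) - n)`. Hence `|U| ≤ 5` for `n = 2k` and
`|U| ≤ 7` for `n = 2k + 1`: the graph of the good pairs has no complete subgraph on six (eight)
vertices. Apply the theorem of Turán, and take the mean over all `W`.
-/

set_option autoImplicit false

namespace Pool.Agent.Results.MP_450e1b_mp.TuranBounds

open Pool.Agent.H155.QX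

/-- **Main theorem.** The upper bounds for `Q_ex(2k, k)` and `Q_ex(2k + 1, k)`, first with the numbers
of edges of the Turán graphs with `k + 2` vertices and five (seven) classes, then in a simpler form. -/
theorem result (k : ℕ) :
    ((k + 2).choose 2 * Qex (2 * k) k ≤
      (SimpleGraph.turanGraph (k + 2) 5).edgeFinset.card * (2 * k).choose k ∧
    (k + 2).choose 2 * Qex (2 * k + 1) k ≤
      (SimpleGraph.turanGraph (k + 2) 7).edgeFinset.card * (2 * k + 1).choose k) ∧
    5 * (k + 1) * Qex (2 * k) k ≤ 4 * (k + 2) * (2 * k).choose k ∧
    7 * (k + 1) * Qex (2 * k + 1) k ≤ 6 * (k + 2) * (2 * k + 1).choose k := by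
  rw [two_mul]
  exact ⟨⟨turan_even k, turan_odd k⟩, simple_form (turan_even k), simple_form (turan_odd k)⟩

end Pool.Agent.Results.MP_450e1b_mp.TuranBounds
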