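import Mathlib
import Pool.Agent.H155.QX.Comp

/-!
# The quantum extremal number `Q_ex(12, 6)` is at least `720`

`Q_ex(n, k)` is the largest number of sets of `k` qubits on which a state of `n` qubits is maximally
mixed. The state used here is the graph state of a graph with `12` vertices and `30` edges; it is
maximally mixed on (at least) `720` of the `924` sets of six qubits. Its stabiliser code is a Hermitian
self-dual code of length `12` and minimum weight `4` over the field with four elements (`9` words of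
weight `4`, `360` of weight `6`); the dodecacode, of minimum weight `6`, gives only `540`.
-/

set_option autoImplicit false

open Matrix

namespace Pool.Agent.Results.MP_450e1b_mp.TwelveSix

/-- The configuration in `{0,1}^n` (`ZMod 2` is the set `{0, 1}`) with the values `a` on `A` and `b`
on the complement of `A`. -/
def glue {n : ℕ} (A : Finset (Fin n)) (a : {i : Fin n // i ∈ A} → ZMod 2)
    (b : {i : Fin n // i ∉ A} → ZMod 2) : Fin n → ZMod 2 :=
  fun i => if h : i ∈ A then a ⟨i, h⟩ else b ⟨i, h⟩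

/-- The matrix `M_A` with the entries `ψ(a, b)`. -/
def M {n : ℕ} (ψ : (Fin n → ZMod 2) → ℂ) (A : Finset (Fin n)) :
    Matrix ({i : Fin n // i ∈ A} → ZMod 2) ({i : Fin n // i ∉ A} → ZMod 2) ℂ :=
  Matrix.of fun a b => ψ (glue A a b)

/-- `ψ` is maximally mixed on `A`: the reduced density matrix `M_A M_A^*` is `2^(-|A|)` times the
identity matrix. -/
def MaxMixed {n : ℕ} (ψ : (Fin n → ZMod 2) → ℂ) (A : Finset (Fin n)) : Prop :=
  M ψ A * (M ψ A)ᴴ = ((2 : ℂ) ^ A.card)⁻¹ • (1 : Matrix _ _ ℂ)

/-- `m_k(ψ)`: the number of `k`-element sets on which `ψ` is maximally mixed. -/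
noncomputable def m {n : ℕ} (k : ℕ) (ψ : (Fin n → ZMod 2) → ℂ) : ℕ :=
  {A : Finset (Fin n) | A.card = k ∧ MaxMixed ψ A}.ncard

/-- The quantum extremal number `Q_ex(n, k)`: the maximum (over a set of numbers at most `2^n`, see
`bdd`) of `m_k(ψ)` over all normalised states `ψ` of `n` qubits. -/
noncomputable def Qex (n k : ℕ) : ℕ :=
  sSup {j : ℕ | ∃ ψ : (Fin n → ZMod 2) → ℂ, ∑ x, ‖ψ x‖ ^ 2 = 1 ∧ m k ψ = j}

open Pool.Agent.H155.QX

attribute [local irreducible] U

/-! ### The bit masks -/

lemma testBit_foldr (L : List ℕ) (j : ℕ) :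
    bt ((L.foldr (· ^^^ ·) 0).testBit j) = (L.map (fun x => bt (x.testBit j))).sum := by
  induction L with
  | nil => simp [bt]
  | cons x L ih => simp only [List.foldr_cons, Nat.testBit_xor, bt_xor, ih, List.map_cons,
      List.sum_cons]

/-- the bit mask of a configuration -/
def mask (d : Fin 12 → ZMod 2) : ℕ := Nat.ofBits fun i => decide (d i = 1)

lemma mask_testBit (d : Fin 12 → ZMod 2) (i : Fin 12) : (mask d).testBit i = decide (d i = 1) := by
  unfold mask
  rw [Nat.testBit_ofBits_lt _ _ i.2]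

lemma mask_testBit_ge (d : Fin 12 → ZMod 2) {i : ℕ} (hi : 12 ≤ i) : (mask d).testBit i = false := by
  unfold mask
  rw [Nat.testBit_ofBits_ge _ _ hi]

lemma bt_mask (d : Fin 12 → ZMod 2) (i : Fin 12) : bt ((mask d).testBit i) = d i := by
  rw [mask_testBit]
  generalize d i = z
  revert z; decide

lemma mask_lt (d : Fin 12 → ZMod 2) : mask d < 4096 := by
  unfold mask
  exact Nat.ofBits_lt_two_pow _

lemma bt_R (d : Fin 12 → ZMod 2) (j : Fin 12) :
    bt ((R (mask d)).testBit j) = ∑ i, d i * (U i j + U j i) := by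
  unfold R
  rw [testBit_foldr, List.map_map, ← Fin.sum_univ_def]
  refine Finset.sum_congr rfl fun i _ => ?_
  simp only [Function.comp]
  rw [U_sym, ← bt_mask d i, ← bt_and]
  split_ifs with h
  · rw [h, Bool.true_and]
  · rw [Bool.not_eq_true] at h
    rw [h, Bool.false_and, Nat.zero_testBit]

lemma R_lt : ∀ i : Fin 12, r i < 4096 := by decide

/-- the set with the given bit mask -/
def toSet (g : ℕ) : Finset (Fin 12) := Finset.univ.filter fun i => g.testBit i = true

lemma mem_toSet (g : ℕ) (i : Fin 12) : i ∈ toSet g ↔ g.testBit i = true := by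
  simp [toSet]

lemma card_toSet (g : ℕ) : (toSet g).card = pop g := by
  unfold toSet pop
  rw [Finset.card_filter, Fin.sum_univ_def]

lemma toSet_inj {g h : ℕ} (hg : g < 4096) (hh : h < 4096) (e : toSet g = toSet h) : g = h := by
  apply Nat.eq_of_testBit_eq
  intro i
  by_cases hi : i < 12
  · have h1 := mem_toSet g ⟨i, hi⟩
    have h2 := mem_toSet h ⟨i, hi⟩
    rw [e] at h1
    have h3 := h1.symm.trans h2
    simp only at h3
    exact Bool.eq_iff_iff.2 h3
  · have h1 : g < 2 ^ i := hg.trans_le (by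
      calc 4096 = 2 ^ 12 := by norm_num
        _ ≤ 2 ^ i := Nat.pow_le_pow_right (by norm_num) (by omega))
    have h2 : h < 2 ^ i := hh.trans_le (by
      calc 4096 = 2 ^ 12 := by norm_num
        _ ≤ 2 ^ i := Nat.pow_le_pow_right (by norm_num) (by omega))
    rw [Nat.testBit_lt_two_pow h1, Nat.testBit_lt_two_pow h2]

/-- the result of the computation: a nonzero `d` supported in a member of `G` has a neighbour
outside -/
lemma exists_nb {g : ℕ} (hg : g ∈ G) {d : Fin 12 → ZMod 2} (hd : d ≠ 0)
    (hs : ∀ i, i ∉ toSet g → d i = 0) : ∃ j, j ∉ toSet g ∧ ∑ i, d i * (U i j + U j i) = 1 := by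
  have hG := chkG_true
  unfold chkG at hG
  rw [List.all_eq_true] at hG
  have hG' := hG g hg
  simp only [Bool.and_eq_true, decide_eq_true_eq, beq_iff_eq, List.all_eq_true,
    Bool.not_eq_true', beq_eq_false_iff_ne] at hG'
  obtain ⟨⟨hg1, hg2⟩, hg3⟩ := hG'
  by_contra hcon
  push Not at hcon
  obtain ⟨s, hsdef⟩ : ∃ s, s = mask d := ⟨_, rfl⟩
  -- the bits of s and of R s are in g
  have hsub : ∀ i : Fin 12, (s ||| R s).testBit i = true → g.testBit i = true := by
    intro i hi
    by_contra hgi
    have hi' : i ∉ toSet g := by rw [mem_toSet]; exact hgi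
    rw [Nat.testBit_or, Bool.or_eq_true] at hi
    rcases hi with hi | hi
    · have h1 := bt_mask d i
      rw [hs i hi', ← hsdef, hi] at h1
      exact absurd h1 (by decide)
    · refine hcon i hi' ?_
      rw [← bt_R, ← hsdef, hi]
      rfl
  have hs0 : s ≠ 0 := by
    intro h
    apply hd
    funext i
    rw [← bt_mask d i, ← hsdef, h, Nat.zero_testBit]
    rfl
  have hslt : s < 4096 := hsdef ▸ mask_lt d
  have hW := chkW_true
  unfold chkW at hW
  rw [List.all_eq_true] at hW
  have h1 := hW (s / 64) (List.mem_range.2 (by omega))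
  rw [List.all_eq_true] at h1
  have h2 := h1 (s % 64) (List.mem_range.2 (by omega))
  rw [show 64 * (s / 64) + s % 64 = s by omega] at h2
  simp only [Bool.or_eq_true, beq_iff_eq, decide_eq_true_eq, List.contains_iff_mem] at h2
  rcases h2 with (h2 | h2) | h2
  · exact hs0 h2
  · rw [← card_toSet] at h2 hg2
    have h3 : toSet (s ||| R s) ⊆ toSet g := by
      intro i hi
      rw [mem_toSet] at hi ⊢
      exact hsub i hi
    have := Finset.card_le_card h3
    omega
  · apply hg3 _ h2
    apply Nat.eq_of_testBit_eq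
    intro i
    rw [Nat.testBit_and]
    by_cases hi : i < 12
    · by_cases h5 : (s ||| R s).testBit i = true
      · rw [h5, hsub ⟨i, hi⟩ h5, Bool.true_and]
      · rw [Bool.not_eq_true] at h5
        rw [h5, Bool.false_and]
    · have h6 : (s ||| R s).testBit i = false := by
        have h7 := W_lt
        have h8 := h7 _ h2
        exact Nat.testBit_lt_two_pow (h8.trans_le (by
          calc 4096 = 2 ^ 12 := by norm_num
            _ ≤ 2 ^ i := Nat.pow_le_pow_right (by norm_num) (by omega)))
      rw [h6, Bool.false_and]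

/-! ### The state -/

/-- the sign -/
noncomputable def sg (z : ZMod 2) : ℂ := if z = 0 then 1 else -1

lemma zmod2 (z : ZMod 2) : z = 0 ∨ z = 1 := by
  revert z; decide

lemma sg_add (x y : ZMod 2) : sg (x + y) = sg x * sg y := by
  rcases zmod2 x with rfl | rfl <;> rcases zmod2 y with rfl | rfl
  · simp [sg]
  · simp [sg]
  · simp [sg]
  · rw [show (1 : ZMod 2) + 1 = 0 by decide]
    simp [sg]

lemma sg_one : sg 1 = -1 := by norm_num [sg]

lemma sg_mul_self (x : ZMod 2) : sg x * sg x = 1 := by
  rcases zmod2 x with rfl | rfl <;> norm_num [sg]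

lemma sg_star (x : ZMod 2) : star (sg x) = sg x := by
  rcases zmod2 x with rfl | rfl <;> norm_num [sg]

/-- the quadratic form: the number of the edges inside `x`, modulo 2 -/
def q (x : Fin 12 → ZMod 2) : ZMod 2 := ∑ i, ∑ k, U i k * x i * x k

lemma quad_add {n : ℕ} (V : Fin n → Fin n → ZMod 2) (x y : Fin n → ZMod 2) :
    ∑ i, ∑ k, V i k * (x + y) i * (x + y) k = ∑ i, ∑ k, V i k * x i * x k +
      ∑ i, ∑ k, V i k * y i * y k + ∑ k, (∑ i, x i * (V i k + V k i)) * y k := by
  have e : ∑ k, (∑ i, x i * (V i k + V k i)) * y k =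
      ∑ i, ∑ k, (V i k * x i * y k + V i k * y i * x k) := by
    have e1 : ∀ k, (∑ i, x i * (V i k + V k i)) * y k =
        ∑ i, (V i k * x i * y k + V k i * y k * x i) := by
      intro k
      rw [Finset.sum_mul]
      refine Finset.sum_congr rfl fun i _ => ?_
      ring
    simp only [e1, Finset.sum_add_distrib]
    congr 1
    exact Finset.sum_comm
  rw [e, ← Finset.sum_add_distrib, ← Finset.sum_add_distrib]
  refine Finset.sum_congr rfl fun i _ => ?_
  rw [← Finset.sum_add_distrib, ← Finset.sum_add_distrib]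
  refine Finset.sum_congr rfl fun k _ => ?_
  simp only [Pi.add_apply]
  ring

lemma q_add (x y : Fin 12 → ZMod 2) :
    q (x + y) = q x + q y + ∑ k, (∑ i, x i * (U i k + U k i)) * y k :=
  quad_add U x y

lemma q_add_single (x : Fin 12 → ZMod 2) (j : Fin 12) :
    q (x + Pi.single j 1) = q x + q (Pi.single j 1) + ∑ i, x i * (U i j + U j i) := by
  rw [q_add]
  congr 1
  rw [Finset.sum_eq_single j]
  · rw [Pi.single_eq_same, mul_one]
  · intro k _ hk
    rw [Pi.single_eq_of_ne hk, mul_zero]
  · intro h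
    exact absurd (Finset.mem_univ j) h

/-- the graph state -/
noncomputable def psi (x : Fin 12 → ZMod 2) : ℂ := (1 / 64 : ℂ) * sg (q x)

lemma psi_norm (x : Fin 12 → ZMod 2) : ‖psi x‖ ^ 2 = 1 / 4096 := by
  unfold psi
  rcases zmod2 (q x) with h | h <;> rw [h] <;> norm_num [sg]

lemma psi_normalised : ∑ x, ‖psi x‖ ^ 2 = 1 := by
  simp only [psi_norm, Finset.sum_const, Finset.card_univ, Fintype.card_pi, ZMod.card,
    Finset.prod_const, Fintype.card_fin]
  norm_num

lemma glue_add {A : Finset (Fin 12)} (a : {i : Fin 12 // i ∈ A} → ZMod 2)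
    (b : {i : Fin 12 // i ∉ A} → ZMod 2) {j : Fin 12} (hj : j ∉ A) :
    glue A a (b + Pi.single ⟨j, hj⟩ 1) = glue A a b + Pi.single j 1 := by
  funext i
  simp only [glue, Pi.add_apply]
  split_ifs with h
  · have : i ≠ j := fun e => hj (e ▸ h)
    rw [Pi.single_eq_of_ne this, add_zero]
  · by_cases e : i = j
    · subst e
      rw [Pi.single_eq_same, Pi.single_eq_same]
    · rw [Pi.single_eq_of_ne e, Pi.single_eq_of_ne (fun h' => e (congrArg Subtype.val h'))]

lemma mixed {g : ℕ} (hg : g ∈ G) : MaxMixed psi (toSet g) := by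
  have hG := chkG_true
  unfold chkG at hG
  rw [List.all_eq_true] at hG
  have hG' := hG g hg
  simp only [Bool.and_eq_true, decide_eq_true_eq, beq_iff_eq] at hG'
  have hcard : (toSet g).card = 6 := by rw [card_toSet]; exact hG'.1.2
  obtain ⟨A, hA⟩ : ∃ A, A = toSet g := ⟨_, rfl⟩
  unfold MaxMixed
  rw [← hA] at hcard ⊢
  ext a a'
  rw [Matrix.mul_apply, Matrix.smul_apply, Matrix.one_apply]
  simp only [Matrix.conjTranspose_apply, M, Matrix.of_apply]
  by_cases haa : a = a'
  · subst haa
    rw [if_pos rfl]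
    have h1 : ∀ b : {i : Fin 12 // i ∉ A} → ZMod 2,
        psi (glue A a b) * star (psi (glue A a b)) = 1 / 4096 := by
      intro b
      unfold psi
      rw [star_mul', sg_star]
      calc (1 / 64 : ℂ) * sg (q (glue A a b)) * (star (1 / 64 : ℂ) * sg (q (glue A a b)))
          = (1 / 64 : ℂ) * star (1 / 64 : ℂ) * (sg (q (glue A a b)) * sg (q (glue A a b))) := by ring
        _ = 1 / 4096 := by
          rw [sg_mul_self]
          norm_num
    simp only [h1]
    rw [Finset.sum_const, Finset.card_univ, Fintype.card_fun, ZMod.card]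
    have h2 : Fintype.card {i : Fin 12 // i ∉ A} = 6 := by
      rw [Fintype.card_subtype_compl, Fintype.card_fin, Fintype.card_coe, hcard]
    rw [h2, hcard]
    norm_num
  · rw [if_neg haa, smul_zero]
    -- the difference
    obtain ⟨d, hd⟩ : ∃ d : Fin 12 → ZMod 2, d = glue A a 0 + glue A a' 0 := ⟨_, rfl⟩
    have hd0 : d ≠ 0 := by
      intro h
      apply haa
      funext i
      have h1 := congrFun (hd.symm.trans h) i.1
      simp only [glue, Pi.add_apply, i.2, dif_pos, Pi.zero_apply] at h1
      revert h1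
      generalize a i = x
      generalize a' i = y
      revert x y
      decide
    have hds : ∀ i, i ∉ toSet g → d i = 0 := by
      intro i hi
      rw [← hA] at hi
      rw [hd]
      simp [glue, hi]
    obtain ⟨j, hj, hjs⟩ := exists_nb hg hd0 hds
    rw [← hA] at hj
    have hsum : ∀ b : {i : Fin 12 // i ∉ A} → ZMod 2,
        (∑ i, glue A a b i * (U i j + U j i)) + ∑ i, glue A a' b i * (U i j + U j i) = 1 := by
      intro b
      rw [← hjs, ← Finset.sum_add_distrib]
      refine Finset.sum_congr rfl fun i _ => ?_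
      rw [hd, ← add_mul]
      congr 1
      simp only [glue, Pi.add_apply]
      split_ifs with h
      · rfl
      · generalize b ⟨i, h⟩ = z
        simp only [Pi.zero_apply]
        revert z; decide
    have hflip : ∀ b : {i : Fin 12 // i ∉ A} → ZMod 2,
        psi (glue A a (b + Pi.single ⟨j, hj⟩ 1)) * star (psi (glue A a' (b + Pi.single ⟨j, hj⟩ 1))) =
        -(psi (glue A a b) * star (psi (glue A a' b))) := by
      intro b
      have h1 := hsum b
      rw [glue_add a b hj, glue_add a' b hj]
      unfold psi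
      rw [q_add_single, q_add_single, star_mul', star_mul', sg_star, sg_star]
      obtain ⟨u, hu⟩ : ∃ u, u = ∑ i, glue A a b i * (U i j + U j i) := ⟨_, rfl⟩
      obtain ⟨v, hv⟩ : ∃ v, v = ∑ i, glue A a' b i * (U i j + U j i) := ⟨_, rfl⟩
      rw [← hu, ← hv] at h1 ⊢
      rw [sg_add, sg_add, sg_add, sg_add]
      have h2 : sg u * sg v = -1 := by rw [← sg_add, h1, sg_one]
      have h3 := sg_mul_self (q (Pi.single j 1))
      calc (1 / 64 : ℂ) * (sg (q (glue A a b)) * sg (q (Pi.single j 1)) * sg u) *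
            (star (1 / 64 : ℂ) * (sg (q (glue A a' b)) * sg (q (Pi.single j 1)) * sg v))
          = (1 / 64 : ℂ) * star (1 / 64 : ℂ) * sg (q (glue A a b)) * sg (q (glue A a' b)) *
            (sg (q (Pi.single j 1)) * sg (q (Pi.single j 1))) * (sg u * sg v) := by ring
        _ = _ := by rw [h2, h3]; ring
    have hS : ∑ b : {i : Fin 12 // i ∉ A} → ZMod 2, psi (glue A a b) * star (psi (glue A a' b)) =
        -∑ b : {i : Fin 12 // i ∉ A} → ZMod 2, psi (glue A a b) * star (psi (glue A a' b)) := by
      conv_lhs => rw [← Equiv.sum_comp (Equiv.addRight (Pi.single ⟨j, hj⟩ 1))]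
      rw [← Finset.sum_neg_distrib]
      refine Finset.sum_congr rfl fun b _ => ?_
      rw [Equiv.coe_addRight]
      exact hflip b
    exact self_eq_neg.1 hS

/-! ### The bound -/

lemma m_le {n : ℕ} (k : ℕ) (ψ : (Fin n → ZMod 2) → ℂ) : m k ψ ≤ 2 ^ n := by
  unfold m
  calc _ ≤ (Set.univ : Set (Finset (Fin n))).ncard := Set.ncard_le_ncard (Set.subset_univ _)
    _ = 2 ^ n := by rw [Set.ncard_univ, Nat.card_eq_fintype_card, Fintype.card_finset,
        Fintype.card_fin]

/-- the numbers `m_k(ψ)` are bounded, so that their supremum in `Qex` is their maximum -/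
lemma bdd (n k : ℕ) :
    BddAbove {j : ℕ | ∃ ψ : (Fin n → ZMod 2) → ℂ, ∑ x, ‖ψ x‖ ^ 2 = 1 ∧ m k ψ = j} :=
  ⟨2 ^ n, by rintro j ⟨ψ, _, rfl⟩; exact m_le k ψ⟩

lemma m_psi : 720 ≤ m 6 psi := by
  have hnd : G.Nodup := (List.isChain_iff_pairwise.1 G_chain).imp (fun h => h.ne)
  have hG := chkG_true
  unfold chkG at hG
  rw [List.all_eq_true] at hG
  have hG' : ∀ g ∈ G, g < 4096 ∧ pop g = 6 := by
    intro g hg
    have := hG g hg
    simp only [Bool.and_eq_true, decide_eq_true_eq, beq_iff_eq] at this
    exact this.1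
  unfold m
  have h1 : (((G.toFinset).image toSet : Finset (Finset (Fin 12))) : Set (Finset (Fin 12))) ⊆
      {A : Finset (Fin 12) | A.card = 6 ∧ MaxMixed psi A} := by
    intro A hA
    rw [Finset.mem_coe, Finset.mem_image] at hA
    obtain ⟨g, hg, rfl⟩ := hA
    rw [List.mem_toFinset] at hg
    exact ⟨by rw [card_toSet]; exact (hG' g hg).2, mixed hg⟩
  have h2 := Set.ncard_le_ncard h1 (Set.toFinite _)
  rw [Set.ncard_coe_finset, Finset.card_image_of_injOn, List.toFinset_card_of_nodup hnd,
    G_length] at h2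
  · exact h2
  · intro g hg h hh e
    rw [Finset.mem_coe, List.mem_toFinset] at hg hh
    exact toSet_inj (hG' g hg).1 (hG' h hh).1 e

/-- **Main theorem.** `Q_ex(12, 6) ≥ 720`. -/
theorem result : 720 ≤ Qex 12 6 :=
  m_psi.trans (le_csSup (bdd 12 6) ⟨psi, psi_normalised, rfl⟩)

end Pool.Agent.Results.MP_450e1b_mp.TwelveSix
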