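import Mathlib
import Pool.Agent.H155.QX.Lower
import Pool.Agent.H155.QX.Step

/-!
# A lower bound for all quantum extremal numbers

`Q_ex(n, k)` (`Qex n k`, see `Pool/Agent/H155/QX/Defs.lean`) is the largest number of sets of `k`
qubits on which a state of `n` qubits is maximally mixed. For all `n`, `k`

* `Q_ex(n, k) ≥ (1 - (4^k + (-2)^k - 2) / (3 · 2^n)) C(n, k)` if `n` is even,
* `Q_ex(n, k) ≥ (1 - (2 · 4^k - (-2)^k - 1) / (3 · 2^n)) C(n, k)` if `n` is odd.

For `n = 2 k` and `n = 2 k + 1`, the hardest cases, this is asymptotically `2/3` of all sets. (For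
random graph states, or random stabiliser states, the proportion is `0.288…` and `0.577…`.)

Proof. Let `n = 2 m` and let `F` be the field with four elements. A Hermitian matrix `K` of order `m`
over `F` gives the Hermitian self-dual code `C_K = {(x + ω K x, x + ω² K x)}`; the Pauli operators
of the vectors of `C_K` commute, and a common eigenvector is a state that is maximally mixed on all
sets which contain the support of no nonzero vector of `C_K`. Every vector of `C_K` has even weight,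
and a nonzero vector is in `C_K` for at most a proportion `2 / 4^m` of the Hermitian matrices `K`.
There are `(4^k + (-2)^k) / 2` vectors of even weight supported in a given set `A` of `k` qubits, and
the nonzero vectors of `C_K` supported in `A` come in triples `v, ωv, ω²v`; hence the mean number of
the sets `A` containing a support is at most `(4^k + (-2)^k - 2) / (3 · 4^m)` times `C(n, k)`. For odd
`n` one qubit of a state of `n + 1` qubits is projected: `Q_ex(n, k) / C(n, k)` is at least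
`Q_ex(n + 1, k + 1) / C(n + 1, k + 1)`.
-/

set_option autoImplicit false

namespace Pool.Agent.Results.MP_450e1b_mp.TwoThirds

open Pool.Agent.H155.QX

/-- **Main theorem.** A lower bound for all `Q_ex(n, k)`. -/
theorem result (n k : ℕ) :
    (Even n → (1 - ((4 : ℝ) ^ k + (-2) ^ k - 2) / (3 * 2 ^ n)) * (n.choose k : ℝ) ≤ Qex n k) ∧
    (Odd n → (1 - (2 * (4 : ℝ) ^ k - (-2) ^ k - 1) / (3 * 2 ^ n)) * (n.choose k : ℝ) ≤ Qex n k) := by
  have h4 : ∀ m : ℕ, (4 : ℝ) ^ m = 2 ^ (m + m) := by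
    intro m
    rw [← two_mul, pow_mul]
    norm_num
  constructor
  · rintro ⟨m, rfl⟩
    have h1 := lower m k
    have h2 : (3 * (4 : ℝ) ^ m - ((4 : ℝ) ^ k + (-2) ^ k - 2)) * ((m + m).choose k : ℝ) ≤
        3 * 4 ^ m * (Qex (m + m) k : ℝ) := by exact_mod_cast h1
    rw [h4 m] at h2
    have h3 : (0 : ℝ) < 3 * 2 ^ (m + m) := by positivity
    rw [show (1 - ((4 : ℝ) ^ k + (-2) ^ k - 2) / (3 * 2 ^ (m + m))) * ((m + m).choose k : ℝ) =
      (3 * (2 : ℝ) ^ (m + m) - ((4 : ℝ) ^ k + (-2) ^ k - 2)) * ((m + m).choose k : ℝ) /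
        (3 * 2 ^ (m + m)) by field_simp, div_le_iff₀ h3]
    linarith
  · rintro ⟨r, hr⟩
    obtain ⟨m, hm⟩ : ∃ m, n + 1 = m + m := ⟨r + 1, by omega⟩
    have h1 := lower m (k + 1)
    rw [← hm] at h1
    have h2 : (3 * (4 : ℝ) ^ m - ((4 : ℝ) ^ (k + 1) + (-2) ^ (k + 1) - 2)) *
        ((n + 1).choose (k + 1) : ℝ) ≤ 3 * 4 ^ m * (Qex (n + 1) (k + 1) : ℝ) := by
      exact_mod_cast h1
    rw [h4 m, ← hm] at h2
    have h5 : ((k : ℝ) + 1) * (Qex (n + 1) (k + 1) : ℝ) ≤ (n + 1) * (Qex n k : ℝ) := by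
      exact_mod_cast step n k
    have h6 : ((n : ℝ) + 1) * (n.choose k : ℝ) = ((n + 1).choose (k + 1) : ℝ) * (k + 1) := by
      exact_mod_cast Nat.add_one_mul_choose_eq n k
    have h3 : (0 : ℝ) < 3 * 2 ^ n := by positivity
    have hn : (0 : ℝ) < (n : ℝ) + 1 := by positivity
    have hk : (0 : ℝ) < (k : ℝ) + 1 := by positivity
    obtain ⟨c, hc⟩ : ∃ c : ℝ, c = (4 : ℝ) ^ k := ⟨_, rfl⟩
    obtain ⟨d, hd⟩ : ∃ d : ℝ, d = (-2 : ℝ) ^ k := ⟨_, rfl⟩
    obtain ⟨e, he⟩ : ∃ e : ℝ, e = (2 : ℝ) ^ n := ⟨_, rfl⟩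
    rw [pow_succ, pow_succ, pow_succ, ← hc, ← hd, ← he] at h2
    rw [← hc, ← hd, ← he]
    rw [← he] at h3
    have he0 : e ≠ 0 := by
      rw [he]
      positivity
    rw [show (1 - (2 * c - d - 1) / (3 * e)) * (n.choose k : ℝ) =
      (3 * e - (2 * c - d - 1)) * (n.choose k : ℝ) / (3 * e) by field_simp, div_le_iff₀ h3]
    -- multiply by `(n + 1)`
    refine le_of_mul_le_mul_left ?_ hn
    calc ((n : ℝ) + 1) * ((3 * e - (2 * c - d - 1)) * (n.choose k : ℝ))
        = (3 * e - (2 * c - d - 1)) * (((n : ℝ) + 1) * (n.choose k : ℝ)) := by ring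
      _ = (k + 1) / 2 * ((3 * (e * 2) - (c * 4 + d * -2 - 2)) *
          ((n + 1).choose (k + 1) : ℝ)) := by rw [h6]; ring
      _ ≤ (k + 1) / 2 * (3 * (e * 2) * (Qex (n + 1) (k + 1) : ℝ)) := by gcongr
      _ = 3 * e * (((k : ℝ) + 1) * (Qex (n + 1) (k + 1) : ℝ)) := by ring
      _ ≤ 3 * e * ((n + 1) * (Qex n k : ℝ)) := by gcongr
      _ = ((n : ℝ) + 1) * ((Qex n k : ℝ) * (3 * e)) := by ring

end Pool.Agent.Results.MP_450e1b_mp.TwoThirds
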